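import Pool.Agent.helper15.LC.Spec

/-!
# Row lc:PIN
-/

open Finset Filter Topology

namespace CO

open CU

theorem PIN (hLPI : LPI_stmt) (hGK2 : GK2_stmt) (hLIM : LIM_stmt) : PIN_stmt := by
  intro V _ _ K K' g g' A hK hg
  have hK0 : ∀ x y, 0 ≤ K x y := fun x y => (abs_nonneg _).trans (hK x y)
  have hg0 : ∀ x, 0 ≤ g x := fun x => (abs_nonneg _).trans (hg x)
  have hgt : ∀ t : ℝ, 0 ≤ t → ∀ x, |g' x + if x ∈ A then t else 0| ≤ g x + if x ∈ A then t else 0 := by
    intro t ht x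
    refine (abs_add_le _ _).trans ?_
    have h1 : |if x ∈ A then t else 0| = if x ∈ A then t else 0 := by
      apply abs_of_nonneg
      split_ifs
      · exact ht
      · exact le_rfl
    rw [h1]
    exact add_le_add (hg x) le_rfl
  have hgt0 : ∀ t : ℝ, 0 ≤ t → ∀ x, 0 ≤ g x + if x ∈ A then t else 0 := fun t ht x =>
    (abs_nonneg _).trans (hgt t ht x)
  refine ⟨fun x y => ?_, fun x y => ?_, fun x y z => ?_⟩
  · refine le_of_tendsto_of_tendsto (hLIM V K' g' A fun σ => sg (σ x) * sg (σ y)).abs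
      (hLIM V K g A fun σ => sg (σ x) * sg (σ y)) ?_
    filter_upwards [eventually_ge_atTop (0 : ℝ)] with t ht
    exact (hLPI V K K' _ _ hK (hgt t ht)).2.1 x y
  · refine le_of_tendsto_of_tendsto ((hLIM V K g A fun σ => sg (σ x)).mul (hLIM V K g A fun σ => sg (σ y)))
      (hLIM V K g A fun σ => sg (σ x) * sg (σ y)) ?_
    filter_upwards [eventually_ge_atTop (0 : ℝ)] with t ht
    exact (hGK2 V K _ hK0 (hgt0 t ht)).1 x y
  · refine le_of_tendsto_of_tendsto
      (((hLIM V K g A fun σ => sg (σ z) * sg (σ x)).mul (hLIM V K' g' A fun σ => sg (σ z) * sg (σ y))).sub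
        ((hLIM V K' g' A fun σ => sg (σ z) * sg (σ x)).mul (hLIM V K g A fun σ => sg (σ z) * sg (σ y)))).abs
      ((hLIM V K g A fun σ => sg (σ x) * sg (σ y)).sub (hLIM V K' g' A fun σ => sg (σ x) * sg (σ y))) ?_
    filter_upwards [eventually_ge_atTop (0 : ℝ)] with t ht
    exact (hLPI V K K' _ _ hK (hgt t ht)).2.2 x y z

end CO
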