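import Pool.Agent.helper15.LC.Spec

/-!
# Row lc:WIN
-/

open Finset Filter Topology

namespace CO

open CU

section
variable {d n : ℕ}

theorem WIN_tri {r L : ℕ} {u x y : Site d n} (h1 : Near r u x) (h2 : Near L x y) : Near (L + r) u y := by
  intro k
  have h3 : y k - u k = (y k - x k) + (x k - u k) := by ring
  rw [h3]
  refine (ZMod.natAbs_valMinAbs_add_le _ _).trans ((Int.natAbs_add_le _ _).trans ?_)
  exact add_le_add (h2 k) (h1 k)

theorem WIN_symm {r : ℕ} {u x : Site d n} (h : Near r u x) : Near r x u := by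
  intro k
  have h1 := h k
  rw [← neg_sub, ZMod.natAbs_valMinAbs_neg] at h1
  exact h1

theorem WIN_add {r : ℕ} {u x a : Site d n} : Near r (u + a) (x + a) ↔ Near r u x := by
  unfold Near
  have h : ∀ k, (x + a) k - (u + a) k = x k - u k := by
    intro k
    rw [Pi.add_apply, Pi.add_apply]
    ring
  simp only [h]

variable [NeZero n]

theorem WIN_mem {r : ℕ} {u x : Site d n} : x ∈ Box r u ↔ Near r u x := by
  unfold Box
  rw [mem_filter]
  exact ⟨fun h => h.2, fun h => ⟨mem_univ _, h⟩⟩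

theorem WIN_KT0 {b : ℝ} (hb : 0 ≤ b) (x y : Site d n) : 0 ≤ KT b (fun _ => 0) x y := by
  unfold KT
  rw [add_zero]
  refine mul_nonneg hb (sum_nonneg fun i _ => ?_)
  split_ifs
  · exact zero_le_one
  · exact le_rfl

theorem WIN_KTmono {b b' : ℝ} (h : b ≤ b') (x y : Site d n) : KT b (fun _ => 0) x y ≤ KT b' (fun _ => 0) x y := by
  unfold KT
  rw [add_zero, add_zero]
  refine mul_le_mul_of_nonneg_right h (sum_nonneg fun i _ => ?_)
  split_ifs
  · exact zero_le_one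
  · exact le_rfl

theorem WIN_KTadd (b : ℝ) (x y a : Site d n) :
    KT b (fun _ => 0) (x + a) (y + a) = KT b (fun _ => 0) x y := by
  unfold KT
  have h : ∀ i : Fin d, (y + a = x + a + ev i) ↔ (y = x + ev i) := by
    intro i
    rw [add_right_comm]
    exact add_left_inj a
  simp only [h]

theorem WIN_boxadd (R : ℕ) (x w : Site d n) : w + x ∈ Box R x ↔ w ∈ Box R 0 := by
  rw [WIN_mem, WIN_mem]
  have h5 := WIN_add (r := R) (u := (0 : Site d n)) (x := w) (a := x)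
  rw [zero_add] at h5
  exact h5

theorem WIN_KWadd (b b₁ : ℝ) (R : ℕ) (x u v : Site d n) :
    KW b b₁ (Box R x) (u + x) (v + x) = KW b b₁ (Box R 0) u v := by
  unfold KW
  rw [WIN_KTadd, WIN_KTadd]
  by_cases h : u ∈ Box R 0 ∧ v ∈ Box R 0
  · rw [if_pos h, if_pos ⟨(WIN_boxadd R x u).2 h.1, (WIN_boxadd R x v).2 h.2⟩]
  · rw [if_neg h, if_neg fun h' => h ⟨(WIN_boxadd R x u).1 h'.1, (WIN_boxadd R x v).1 h'.2⟩]

theorem WIN_memadd (R : ℕ) (x w : Site d n) : w + x ∈ univ \ Box R x ↔ w ∈ univ \ Box R 0 := by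
  rw [Finset.mem_sdiff, Finset.mem_sdiff, WIN_boxadd]
  exact ⟨fun h => ⟨mem_univ _, h.2⟩, fun h => ⟨mem_univ _, h.2⟩⟩

theorem WIN_avg (K : Site d n → Site d n → ℝ) (g : Site d n → ℝ) (A : Finset (Site d n)) (r : ℕ)
    (hc : ((Box r (0 : Site d n)).card : ℝ) ≠ 0) :
    exA K g A (fun σ => mB r σ) * ((Box r (0 : Site d n)).card : ℝ) =
      ∑ x ∈ Box r (0 : Site d n), exA K g A (fun σ => sg (σ x)) := by
  unfold exA mB
  rw [← Finset.sum_div, Finset.sum_comm]
  have h1 : ∑ σ ∈ pl A, Real.exp (CWM.HH K g σ) *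
      ((∑ x ∈ Box r (0 : Site d n), sg (σ x)) / ((Box r (0 : Site d n)).card : ℝ)) =
      (∑ σ ∈ pl A, ∑ x ∈ Box r (0 : Site d n), Real.exp (CWM.HH K g σ) * sg (σ x)) /
        ((Box r (0 : Site d n)).card : ℝ) := by
    rw [Finset.sum_div]
    refine sum_congr rfl fun σ _ => ?_
    rw [← Finset.mul_sum, mul_div_assoc]
  rw [h1]
  field_simp

end

theorem WIN (hWIB : WIB_stmt) (hGKW : GKW_stmt) (hTRX : TRX_stmt) : WIN_stmt := by
  intro d b b₁ ε hd hb₁ hb hm hε
  obtain ⟨L, r, M₀, h⟩ := hWIB d b b₁ ε hd hb₁ hb hm hε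
  refine ⟨L + r, M₀, fun M hM => ?_⟩
  filter_upwards [h (M + r) (hM.trans (Nat.le_add_right _ _))] with n hn
  have h0 : (0 : Site d (n + 3)) ∈ Box r (0 : Site d (n + 3)) := by
    rw [WIN_mem]
    intro k
    rw [sub_self, ZMod.valMinAbs_zero]
    exact Nat.zero_le _
  have hc0 : 0 < ((Box r (0 : Site d (n + 3))).card : ℝ) := by
    exact_mod_cast card_pos.2 ⟨_, h0⟩
  have hav := WIN_avg (KW b b₁ (Box L (0 : Site d (n + 3)))) (fun _ => 0) (univ \ Box (M + r) 0) r hc0.ne'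
  obtain ⟨x, hx, hxe⟩ : ∃ x ∈ Box r (0 : Site d (n + 3)), ms d b - ε ≤
      exA (KW b b₁ (Box L (0 : Site d (n + 3)))) (fun _ => 0) (univ \ Box (M + r) 0) (fun σ => sg (σ x)) := by
    refine exists_le_of_sum_le (f := fun _ => ms d b - ε) ⟨_, h0⟩ ?_
    rw [← hav, sum_const, nsmul_eq_mul, mul_comm]
    exact mul_le_mul_of_nonneg_right hn hc0.le
  have hx' : Near r 0 x := WIN_mem.1 hx
  have hb0 : 0 ≤ b := hb₁.trans hb.le
  have hsub1 : Box L (0 : Site d (n + 3)) ⊆ Box (L + r) x := by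
    intro y hy
    rw [WIN_mem] at hy ⊢
    exact WIN_tri (WIN_symm hx') hy
  have hsub2 : univ \ Box (M + r) (0 : Site d (n + 3)) ⊆ univ \ Box M x := by
    refine sdiff_subset_sdiff (Subset.refl _) fun y hy => ?_
    rw [WIN_mem] at hy ⊢
    exact WIN_tri hx' hy
  have h1 := (hGKW (Site d (n + 3)) (KW b b₁ (Box L 0)) (KW b b₁ (Box (L + r) x)) (fun _ => 0) (fun _ => 0)
    (fun u v => by
      unfold KW
      split_ifs
      · exact WIN_KT0 hb0 u v
      · exact WIN_KT0 hb₁ u v)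
    (fun _ => le_rfl)
    (fun u v => by
      unfold KW
      split_ifs with h2 h3 h3
      · exact le_rfl
      · exact absurd ⟨hsub1 h2.1, hsub1 h2.2⟩ h3
      · exact WIN_KTmono hb.le u v
      · exact le_rfl)
    (fun _ => le_rfl) _ _ hsub2 x x).1
  have h2 := (hTRX d (n + 3) x (KW b b₁ (Box (L + r) 0)) (KW b b₁ (Box (L + r) x)) 0 (univ \ Box M 0)
    (univ \ Box M x) (fun σ => sg (σ x))
    (fun u v => WIN_KWadd b b₁ (L + r) x u v) (fun w => WIN_memadd M x w)).1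
  have h3 : (fun σ : Conf d (n + 3) => (fun σ' : Conf d (n + 3) => sg (σ' x)) (fun y => σ (y - x))) =
      fun σ => sg (σ 0) := by
    funext σ
    show sg (σ (x - x)) = sg (σ 0)
    rw [sub_self]
  rw [h3] at h2
  exact (hxe.trans h1).trans h2.le

end CO
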